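import Pool.Agent.H98.RFT.Targets3
import Pool.Agent.H13.RFT.BM
import Pool.Agent.H11.RFZ.CMEA

/-!
# CM: tube crossings at positive temperature (`MP_057a7e_pr`)
-/

set_option autoImplicit false

noncomputable section

open MeasureTheory ProbabilityTheory Filter Topology

namespace Pool.Agent.H17.RFT

open Pool.Agent.H98.RFC Pool.Agent.H98.RFZ Pool.Agent.H98.RFT Pool.Agent.H13.RFT
open Pool.Agent.H11.RFZ

theorem nearSeg_mono {a b x : Site} {r r' : ℝ} (h0 : 0 ≤ r) (h : r ≤ r')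
    (hx : nearSeg a b x r) : nearSeg a b x r' := by
  obtain ⟨t, h1, h2, h3⟩ := hx
  exact ⟨t, h1, h2, h3.trans (pow_le_pow_left₀ h0 h 2)⟩

theorem coord_bound {x a b t r : ℝ} (h0 : 0 ≤ t) (h1 : t ≤ 1) (hr : 0 ≤ r) {s : ℝ} (hs : 0 ≤ s)
    (h : (x - (a + t * (b - a))) ^ 2 + s ≤ r ^ 2) : |x - a| ≤ r + |b - a| := by
  have h2 : |x - (a + t * (b - a))| ≤ r := abs_le_of_sq_le_sq (by linarith) hr
  have h3 : |t * (b - a)| ≤ |b - a| := by
    rw [abs_mul, abs_of_nonneg h0]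
    exact mul_le_of_le_one_left (abs_nonneg _) h1
  have h4 : x - a = (x - (a + t * (b - a))) + t * (b - a) := by ring
  rw [h4]
  exact (abs_add_le _ _).trans (add_le_add h2 h3)

theorem mem_tube {a b x : Site} {u K' : ℕ} (hK : 2 ≤ K') (hx : nearSeg a b x (2 * u)) :
    x ∈ tube a b (K' * u) := by
  classical
  have h2u : (0 : ℝ) ≤ 2 * u := by positivity
  have hle : (2 * u : ℝ) ≤ ((K' * u : ℕ) : ℝ) := by
    push_cast
    have : (2 : ℝ) ≤ K' := by exact_mod_cast hK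
    exact mul_le_mul_of_nonneg_right this (Nat.cast_nonneg _)
  unfold tube
  rw [Finset.mem_filter]
  refine ⟨?_, nearSeg_mono h2u hle hx⟩
  obtain ⟨t, h1, h2, h3⟩ := hx
  have e1 := coord_bound h1 h2 h2u (sq_nonneg _) h3
  rw [add_comm] at h3
  have e2 := coord_bound h1 h2 h2u (sq_nonneg _) h3
  have f1 : |x.1 - a.1| ≤ ((K' * u : ℕ) : ℤ) + |b.1 - a.1| := by
    have : ((|x.1 - a.1| : ℤ) : ℝ) ≤ ((((K' * u : ℕ) : ℤ) + |b.1 - a.1| : ℤ) : ℝ) := by
      push_cast at hle ⊢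
      exact e1.trans (by linarith)
    exact_mod_cast this
  have f2 : |x.2 - a.2| ≤ ((K' * u : ℕ) : ℤ) + |b.2 - a.2| := by
    have : ((|x.2 - a.2| : ℤ) : ℝ) ≤ ((((K' * u : ℕ) : ℤ) + |b.2 - a.2| : ℤ) : ℝ) := by
      push_cast at hle ⊢
      exact e2.trans (by linarith)
    exact_mod_cast this
  have n1 := abs_nonneg (b.1 - a.1)
  have n2 := abs_nonneg (b.2 - a.2)
  have g1 := abs_le.1 f1
  have g2 := abs_le.1 f2
  unfold bx
  simp only [Finset.mem_product, Finset.mem_Icc]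
  refine ⟨⟨?_, ?_⟩, ?_, ?_⟩ <;> push_cast at g1 g2 ⊢ <;> omega

/-- translation of a crossing -/
theorem crsT_shift (u : ℕ) (v y : Site) (D : Set Site) (ω : Finset (Site × Site)) :
    CrsT u v y ((fun x => y + x) '' D) (ω.image (fun e => (y + e.1, y + e.2))) ↔
      CrsT u v 0 D ω := by
  have e0 : y + (0 + sm u v) = y + sm u v := by rw [zero_add]
  have e1 : ∀ x : Site, nearSeg y (y + sm u v) (y + x) (2 * u) ↔
      nearSeg 0 (0 + sm u v) x (2 * u) := by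
    intro x
    have h1 := nearSeg_shift y 0 (0 + sm u v) x (2 * u)
    rwa [add_zero, e0] at h1
  have e2 : ∀ x : Site, y + x ∈ eb y (2 * u) ↔ x ∈ eb 0 (2 * u) := by
    intro x
    have h1 := eb_shift y 0 x (2 * u)
    rwa [add_zero] at h1
  have e3 : ∀ x : Site, y + x ∈ eb (y + sm u v) (2 * u) ↔ x ∈ eb (0 + sm u v) (2 * u) := by
    intro x
    rw [eb_shift, zero_add]
  have key : ∀ (k : ℕ) (x : ℕ → Site),
      (OPath ((fun x => y + x) '' D) (ω.image (fun e => (y + e.1, y + e.2))) k (fun i => y + x i) ∧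
        (∀ i, i ≤ k → nearSeg y (y + sm u v) (y + x i) (2 * u)) ∧
        y + x 0 ∈ eb y (2 * u) ∧ y + x k ∈ eb (y + sm u v) (2 * u)) ↔
      (OPath D ω k x ∧ (∀ i, i ≤ k → nearSeg 0 (0 + sm u v) (x i) (2 * u)) ∧
        x 0 ∈ eb 0 (2 * u) ∧ x k ∈ eb (0 + sm u v) (2 * u)) := by
    intro k x
    rw [e2, e3]
    simp only [e1]
    refine and_congr_left fun _ => ?_
    unfold OPath
    refine and_congr ?_ ?_
    · refine forall_congr' fun i => forall_congr' fun _ => ?_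
      constructor
      · rintro ⟨z, hz, h⟩
        rwa [← add_left_cancel h]
      · intro h
        exact ⟨x i, h, rfl⟩
    · refine forall_congr' fun i => forall_congr' fun _ => ?_
      exact opn_shift y _ _ ω
  unfold CrsT
  constructor
  · rintro ⟨k, x, hx⟩
    refine ⟨k, fun i => x i - y, (key k fun i => x i - y).mp ?_⟩
    have h1 : ∀ i, y + (x i - y) = x i := fun i => by abel
    simp only [h1]
    exact hx
  · rintro ⟨k, x, hx⟩
    exact ⟨k, fun i => y + x i, (key k x).mpr hx⟩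

theorem pf_CM (hCNT : D_CNT) (hTRQ : D_TRQ) (hQP : D_QP) (hTRG : T_TRG) : T_CM := by
  intro R J hJ T ε hT u v K' y
  have hbd : 0 ≤ pCT R J T ε u v K' ∧ pCT R J T ε u v K' ≤ 1 := PA_bd hQP hJ T ε hT _ _
  refine ⟨?_, ?_, ?_, ?_, hbd.1, hbd.2⟩
  · rintro D D' ω hD ⟨k, x, ⟨h1, h2⟩, h3⟩
    exact ⟨k, x, ⟨fun i hi => hD (h1 i hi), h2⟩, h3⟩
  · rintro hK D ω ⟨k, x, ⟨h1, h2⟩, h3, h4⟩
    have h5 : ∀ i, i ≤ k → x i ∈ tube y (y + sm u v) (K' * u) := fun i hi =>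
      mem_tube hK (h3 i hi)
    refine ⟨k, x, ⟨fun i hi => ⟨h1 i hi, Finset.mem_coe.2 (h5 i hi)⟩, fun i hi => ?_⟩, h3, h4⟩
    rcases h2 i hi with h | h
    · exact Or.inl (Finset.mem_inter.2 ⟨h, Finset.mem_product.2
        ⟨h5 i hi.le, h5 (i + 1) hi⟩⟩)
    · exact Or.inr (Finset.mem_inter.2 ⟨h, Finset.mem_product.2
        ⟨h5 (i + 1) hi, h5 i hi.le⟩⟩)
  · rintro D ω ⟨k, x, ⟨h1, h2⟩, h3⟩
    exact ⟨k, x, ⟨h1, fun i hi => (h2 i hi).imp (fun h => (Finset.mem_inter.1 h).1)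
      fun h => (Finset.mem_inter.1 h).1⟩, h3⟩
  · unfold pCT
    have h0 : tube y (y + sm u v) (K' * u) =
        (tube 0 (0 + sm u v) (K' * u)).image fun x => y + x := by
      have h1 := tube_shift y 0 (0 + sm u v) (K' * u)
      rwa [add_zero, show y + (0 + sm u v) = y + sm u v by rw [zero_add]] at h1
    have h2 := PA_shift hCNT hTRQ hTRG R J T ε hT y (tube 0 (0 + sm u v) (K' * u)) (CrsT u v y)
      (CrsT u v 0) (crsT_shift u v y)
    rw [h0]
    exact h2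

end Pool.Agent.H17.RFT
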