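import Pool.Agent.H98.RFT.Targets3

/-!
# INT3: integration over the shifts at positive temperature (`MP_057a7e_pr`)
-/

set_option autoImplicit false

noncomputable section

open MeasureTheory ProbabilityTheory Filter Topology

namespace Pool.Agent.H17.RFT

open Pool.Agent.H98.RFC Pool.Agent.H98.RFZ Pool.Agent.H98.RFT

theorem pf_INT3 (hAP : D_AP) (hCNT : D_CNT) (_hTEN : D_TEN) (hINF : D_INF) : R_INT := by
  classical
  intro R J hJ T ε Y τ V Λ hT hε hτ hY hV hVL hP
  have hprob : IsProbabilityMeasure gam := by unfold gam; infer_instance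
  -- measurability
  have hD : Measurable (fun h : Site → ℝ => ∑ x ∈ V, inf1 R J h T Λ x) :=
    (continuous_finsetSum V fun x _ => (hCNT R J T hT Λ).2.2 x).measurable
  obtain ⟨F, hF⟩ : ∃ F : (Site → ℝ) → ℝ → ℝ, ∀ η s,
      F η s = ∑ x ∈ V, inf1 R J (fun x => ε * shf V s η x) T Λ x := ⟨_, fun _ _ => rfl⟩
  have hΦ : Measurable (fun p : (Site → ℝ) × ℝ =>
      (fun x => ε * shf V p.2 p.1 x : Site → ℝ)) := by
    refine measurable_pi_iff.mpr fun x => ?_
    unfold shf
    refine Measurable.const_mul ?_ ε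
    refine ((measurable_pi_apply x).comp measurable_fst).add ?_
    split_ifs
    · exact measurable_snd
    · exact measurable_const
  have hG : Measurable (fun p : (Site → ℝ) × ℝ => F p.1 p.2) := by
    have h1 := hD.comp hΦ
    have h2 : (fun p : (Site → ℝ) × ℝ => F p.1 p.2) =
        (fun h : Site → ℝ => ∑ x ∈ V, inf1 R J h T Λ x) ∘
          (fun p : (Site → ℝ) × ℝ => (fun x => ε * shf V p.2 p.1 x : Site → ℝ)) := by
      funext p
      rw [hF]
      rfl
    rw [h2]
    exact h1
  obtain ⟨ν, hν⟩ : ∃ ν : Measure ℝ, ν = volume.restrict (Set.Icc (-τ) τ) := ⟨_, rfl⟩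
  have hνu : ν Set.univ = ENNReal.ofReal (2 * τ) := by
    rw [hν, Measure.restrict_apply_univ, Real.volume_Icc]
    congr 1
    ring
  have hνf : IsFiniteMeasure ν := ⟨by rw [hνu]; exact ENNReal.ofReal_lt_top⟩
  obtain ⟨A, hAdef⟩ : ∃ A : Set ((Site → ℝ) × ℝ), A = {p | Y ≤ F p.1 p.2} := ⟨_, rfl⟩
  have hA : MeasurableSet A := by
    rw [hAdef]
    exact measurableSet_le measurable_const hG
  have h1 : (gam.prod ν) A = ∫⁻ s, gam ((fun η => (η, s)) ⁻¹' A) ∂ν :=
    Measure.prod_apply_symm hA
  have h2 : (gam.prod ν) A = ∫⁻ η, ν (Prod.mk η ⁻¹' A) ∂gam := Measure.prod_apply hA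
  have h3 : ENNReal.ofReal (49 / 50) * ENNReal.ofReal (2 * τ) ≤ (gam.prod ν) A := by
    rw [h1, ← hνu, ← lintegral_const]
    refine lintegral_mono_ae ?_
    rw [hν]
    filter_upwards [ae_restrict_mem measurableSet_Icc] with s hs
    rw [ENNReal.ofReal_le_iff_le_toReal (measure_ne_top _ _)]
    have h4 := hP s (abs_le.mpr hs)
    have h5 : ((fun η => (η, s)) ⁻¹' A : Set (Site → ℝ)) =
        {η | Y ≤ ∑ x ∈ V, inf1 R J (fun x => ε * shf V s η x) T Λ x} := by
      rw [hAdef]
      ext η
      show Y ≤ F η s ↔ _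
      rw [hF]
      rfl
    rw [h5]
    exact h4
  obtain ⟨E, hE⟩ : ∃ E : Set (Site → ℝ), E = {η | ENNReal.ofReal τ ≤ ν (Prod.mk η ⁻¹' A)} :=
    ⟨_, rfl⟩
  have hEm : MeasurableSet E := by
    rw [hE]
    exact measurableSet_le measurable_const (measurable_measure_prodMk_left hA)
  have h4 : (gam.prod ν) A ≤ ENNReal.ofReal τ + ENNReal.ofReal τ * gam E := by
    rw [h2]
    calc ∫⁻ η, ν (Prod.mk η ⁻¹' A) ∂gam ≤
        ∫⁻ η, (ENNReal.ofReal τ + E.indicator (fun _ => ENNReal.ofReal τ) η) ∂gam := by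
          refine lintegral_mono fun η => ?_
          dsimp only
          by_cases hη : η ∈ E
          · rw [Set.indicator_of_mem hη, ← ENNReal.ofReal_add hτ.le hτ.le, ← two_mul, ← hνu]
            exact measure_mono (Set.subset_univ _)
          · rw [Set.indicator_of_notMem hη, add_zero]
            rw [hE] at hη
            exact (not_le.mp hη).le
      _ = ENNReal.ofReal τ + ENNReal.ofReal τ * gam E := by
          rw [lintegral_add_left measurable_const, lintegral_const, measure_univ, mul_one,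
            lintegral_indicator_const hEm]
  have h5 : 24 / 25 ≤ (gam E).toReal := by
    have h6 := h3.trans h4
    have h7 : gam E = ENNReal.ofReal (gam E).toReal := (ENNReal.ofReal_toReal
      (measure_ne_top _ _)).symm
    have hp0 : 0 ≤ (gam E).toReal := ENNReal.toReal_nonneg
    rw [h7, ← ENNReal.ofReal_mul (by norm_num), ← ENNReal.ofReal_mul hτ.le,
      ← ENNReal.ofReal_add hτ.le (by positivity),
      ENNReal.ofReal_le_ofReal_iff (by positivity)] at h6
    have h8 : τ * (24 / 25) ≤ τ * (gam E).toReal := by linarith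
    exact le_of_mul_le_mul_left h8 hτ
  have h6 : E ⊆ {η | 2 * ε * τ * Y ≤ tenT R J (fun x => ε * η x) T V Λ} := by
    intro η hη
    rw [hE] at hη
    have h7 := hAP R J hJ (fun x => ε * η x) T hT V Λ hV hVL (-(ε * τ)) (ε * τ) (by
      have := mul_pos hε hτ
      linarith)
    refine le_trans ?_ h7
    obtain ⟨f, hf⟩ : ∃ f : ℝ → ℝ, ∀ t, f t =
      ∑ x ∈ V, inf1 R J (shf V t (fun x => ε * η x)) T Λ x := ⟨_, fun _ => rfl⟩
    have hfF : ∀ s, f (ε * s) = F η s := by
      intro s
      rw [hf, hF]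
      have h8 : shf V (ε * s) (fun x => ε * η x) = fun x => ε * shf V s η x := by
        funext x
        unfold shf
        split_ifs <;> ring
      rw [h8]
    have h8 : ∫ t in Set.Icc (-(ε * τ)) (ε * τ),
        ∑ x ∈ V, inf1 R J (shf V t (fun x => ε * η x)) T Λ x =
        ε * ∫ s in Set.Icc (-τ) τ, F η s := by
      have h9 : (fun t => ∑ x ∈ V, inf1 R J (shf V t (fun x => ε * η x)) T Λ x) = f := by
        funext t
        rw [hf]
      rw [h9, integral_Icc_eq_integral_Ioc, integral_Icc_eq_integral_Ioc,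
        ← intervalIntegral.integral_of_le (by have := mul_pos hε hτ; linarith),
        ← intervalIntegral.integral_of_le (by linarith)]
      have h10 := intervalIntegral.integral_comp_mul_left (a := -τ) (b := τ) f hε.ne'
      simp only [hfF] at h10
      rw [h10, mul_neg, smul_eq_mul, ← mul_assoc, mul_inv_cancel₀ hε.ne', one_mul]
    rw [h8]
    have hFm : Measurable (F η) := hG.comp (measurable_const.prodMk measurable_id)
    have hF0 : ∀ s, 0 ≤ F η s := by
      intro s
      rw [hF]
      exact Finset.sum_nonneg fun x hx => ((hINF R J hJ _ T hT).1 Λ x (hVL hx)).2.1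
    have hFb : ∀ s, ‖F η s‖ ≤ (V.card : ℝ) := by
      intro s
      rw [Real.norm_of_nonneg (hF0 s), hF]
      refine (Finset.sum_le_card_nsmul V _ 1 fun x hx =>
        ((hINF R J hJ _ T hT).1 Λ x (hVL hx)).2.2).trans ?_
      rw [nsmul_eq_mul, mul_one]
    have hint : Integrable (F η) ν :=
      Integrable.of_bound hFm.aestronglyMeasurable (V.card : ℝ) (Eventually.of_forall hFb)
    have h9 := mul_meas_ge_le_integral_of_nonneg (μ := ν) (f := F η)
      (Eventually.of_forall fun s => by
        exact hF0 s) hint Y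
    have h10 : τ ≤ ν.real {s | Y ≤ F η s} := by
      have h11 : (Prod.mk η ⁻¹' A : Set ℝ) = {s | Y ≤ F η s} := by
        rw [hAdef]
        rfl
      have h12 : ENNReal.ofReal τ ≤ ν (Prod.mk η ⁻¹' A) := hη
      rw [h11, ENNReal.ofReal_le_iff_le_toReal (measure_ne_top _ _)] at h12
      exact h12
    have h13 : Y * τ ≤ ∫ s in Set.Icc (-τ) τ, F η s := by
      rw [← hν]
      exact (mul_le_mul_of_nonneg_left h10 hY).trans h9
    have h14 := mul_le_mul_of_nonneg_left h13 hε.le
    calc 2 * ε * τ * Y = 2 * (ε * (Y * τ)) := by ring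
      _ ≤ _ := by linarith
  calc (9 : ℝ) / 10 ≤ 24 / 25 := by norm_num
    _ ≤ (gam E).toReal := h5
    _ ≤ _ := ENNReal.toReal_mono (measure_ne_top _ _) (measure_mono h6)

end Pool.Agent.H17.RFT
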